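import Pool.Agent.H88.TU.Asx

/-!
# MP_821da1_nt: the number of curves with an integer point in every family with fixed upper part, effective and uniform

`G ∈ ℤ[x,y]` has degree `n ≥ 5` and coefficients in `(-B, B)`, its part of degree `n` is irreducible over `ℚ`; `L` runs through the
`K^M` polynomials of degree at most `j` (`3 ≤ j < n`, `M = (j+1)(j+2)/2`) with all coefficients in `[-H,H]`, `K = 2H+1`. The number
of the `L` for which `G + L = 0` has an integer point is `κ K^(M-1)` up to an error at most `B^E H^(-1/(2n+4)) K^(M-1)`, where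
`κ > 0` is an explicit sum of volumes over all integer points of the plane and depends only on `j`, and `E` depends only on `n` and
`j` (not on `G`); for at most `B^E H^(-1/(2n+4)) K^(M-1)` of the `L` there are two or more integer points, and for at most
`B^E (T^(2-j) + H^(-1/(2n+4))) K^(M-1)` one with `max(|x|, |y|) > T`.
-/

namespace Pool.Agent.Results.MP_821da1_nt.EffectiveUpperPart

open MvPolynomial

theorem result (j : ℕ) (hj : 3 ≤ j) : ∃ κ : ℝ, 0 < κ ∧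
    HasSum (fun P : ℤ × ℤ => MeasureTheory.volume.real
      {u : {i : Fin (j + 1) × Fin (j + 1) // 0 < (i.1 : ℕ) + i.2 ∧ (i.1 : ℕ) + i.2 ≤ j} → ℝ |
        (∀ i, |u i| ≤ 1) ∧
        |∑ i, u i * ((P.1 : ℝ) ^ (i.1.1 : ℕ) * (P.2 : ℝ) ^ (i.1.2 : ℕ))| ≤ 1} /
      2 ^ ((j + 1) * (j + 2) / 2 - 1)) κ ∧
    ∀ n : ℕ, 5 ≤ n → j < n → ∃ E : ℕ, ∀ (B : ℕ) (G : MvPolynomial (Fin 2) ℤ), 2 ≤ B → (∀ m, |G.coeff m| < (B : ℤ)) →
      G.totalDegree ≤ n → Irreducible (map (Int.castRingHom ℚ) (homogeneousComponent n G)) →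
      (j + 3 ≤ n → ∀ t b : ℝ, n - 2 ≤ (aeval ![Polynomial.X, Polynomial.C t * Polynomial.X + Polynomial.C b] G :
        Polynomial ℝ).natDegree) →
      ∀ H : ℕ, 1 ≤ H →
        |((Set.ncard {L : MvPolynomial (Fin 2) ℤ | L.totalDegree ≤ j ∧ (∀ m, |L.coeff m| ≤ (H : ℤ)) ∧
            ∃ P : Fin 2 → ℤ, eval P (G + L) = 0} : ℕ) : ℝ) - κ * (2 * (H : ℝ) + 1) ^ ((j + 1) * (j + 2) / 2 - 1)| ≤
          (B : ℝ) ^ E * (H : ℝ) ^ (-(1 / (2 * (n : ℝ) + 4))) * (2 * (H : ℝ) + 1) ^ ((j + 1) * (j + 2) / 2 - 1) ∧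
        ((Set.ncard {L : MvPolynomial (Fin 2) ℤ | L.totalDegree ≤ j ∧ (∀ m, |L.coeff m| ≤ (H : ℤ)) ∧
            ∃ P Q : Fin 2 → ℤ, P ≠ Q ∧ eval P (G + L) = 0 ∧ eval Q (G + L) = 0} : ℕ) : ℝ) ≤
          (B : ℝ) ^ E * (H : ℝ) ^ (-(1 / (2 * (n : ℝ) + 4))) * (2 * (H : ℝ) + 1) ^ ((j + 1) * (j + 2) / 2 - 1) ∧
        ∀ T : ℕ, 1 ≤ T →
          ((Set.ncard {L : MvPolynomial (Fin 2) ℤ | L.totalDegree ≤ j ∧ (∀ m, |L.coeff m| ≤ (H : ℤ)) ∧
              ∃ P : Fin 2 → ℤ, (T : ℤ) < max |P 0| |P 1| ∧ eval P (G + L) = 0} : ℕ) : ℝ) ≤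
            (B : ℝ) ^ E * (1 / (T : ℝ) ^ (j - 2) + (H : ℝ) ^ (-(1 / (2 * (n : ℝ) + 4)))) *
              (2 * (H : ℝ) + 1) ^ ((j + 1) * (j + 2) / 2 - 1) := by
  refine ⟨Pool.Agent.H15.SC.kaps j, Pool.Agent.H15.SC.kaps_pos j hj, ?_, ?_⟩
  · have h1 : HasSum (fun P : ℤ × ℤ => Pool.Agent.H15.SC.kap j P) (Pool.Agent.H15.SC.kaps j) :=
      (Pool.Agent.H15.SC.kaps_summable j hj).hasSum
    have h2 : (fun P : ℤ × ℤ => Pool.Agent.H15.SC.kap j P) = fun P : ℤ × ℤ => MeasureTheory.volume.real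
        (Pool.Agent.H15.SC.Om j P) / 2 ^ ((j + 1) * (j + 2) / 2 - 1) := by
      funext P
      have h3 : Fintype.card (Pool.Agent.H8.NoPt.Ix j) = (j + 1) * (j + 2) / 2 := Pool.Agent.H8.AA.card_ix j
      rw [Pool.Agent.H15.SC.kap_vol j (by omega) P, Pool.Agent.H15.SC.card_Nc, h3]
    rw [h2] at h1
    exact h1
  · intro n hn hjn
    obtain ⟨E, hE⟩ := Pool.Agent.H88.TU.mainx n j hn hj hjn
    exact ⟨E, fun B G hB hGB hG hirr hflex => hE B hB G ⟨hn, hj, hjn, hG, hirr, hflex⟩ (fun m => hGB m)⟩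

end Pool.Agent.Results.MP_821da1_nt.EffectiveUpperPart
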