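import Pool.Agent.H99.TA.Finl

/-! # MP_821da1_nt: in every pencil `F + c` with irreducible leading form and without a real line on a member, ALL curves but at most `312 n^3`
have an explicit bound for their integer points, polynomial in their coefficients; for EVERY `F` all integer points beyond this bound on ALL the
curves `F + L`, `deg L ≤ n - 4`, lie on at most `78 n^3` lines; explicit Thue inequality for every inhomogeneous `F`

`n ≥ 4`. `F` runs over ALL integer polynomials of degree `n` with irreducible leading form, `B` bounds the coefficients of its leading form, `S` is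
the size of the others: the coefficient of `x^a y^b` is `≤ S^(n-a-b)` in absolute value for `a + b < n`. `|F(x,y)| ≤ H` has at most
`N = B^(3000 n^4) (S^(1-1/(36n²)) + H^(2/n) (1 + log H))` integer solutions, at most `M = 360 n^4 H^(1/n)` of them outside `[-X,X]^2`,
`X = (B S^n H)^(700 n^5)`. At most `N` of the curves `F + c = 0`, `|c| ≤ H`, have an integer point, at most `M` have an integer point outside
`[-X,X]^2`. If `F(T, tT+b)` is not constant for any real `t`, `b` (that is: no curve `F + c = 0`, `c` real, contains a real line; the leading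
form is irreducible, so the line is not vertical): for ALL integers `c` but at most `312 n^3`, every integer point of `F + c = 0` lies in
`[-Y,Y]^2`, `Y = (B S^n max(1,|c|))^(6000000 n^5)`. For every `e ≤ n - 4`: if `F(T, tT+b)` has degree `≥ e + 2` in `T` (`≥ e + 1` if
`n ≥ 3e + 4`) for all real `t`, `b`, there are at most `312 n^3` pairs `(L,P)`, `L` ANY integer polynomial of degree `≤ e`, `P` an integer point
of `F + L = 0` outside `[-Y,Y]^2`, `Y = (B S^n h)^(6000000 n^5)`, `h ≥ 1` the height of `L`. At most `80 n^3` pairs with `e = n - 4`, coefficients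
of `L` in `[-H,H]` and `P` outside `[-X,X]^2`, if the degree is always `≥ n - 2` (no real line meets the curve at infinity with multiplicity
`> 2`). Without any condition on `F`: at most `78 n^3` lines contain all points `P` of all pairs `(L,P)`, `L` ANY integer polynomial of degree
`≤ n - 4`, `P` an integer point of `F + L = 0` outside `[-Y,Y]^2`. -/

namespace Pool.Agent.Results.MP_821da1_nt.EveryPencil

open MvPolynomial

theorem result (n : ℕ) (hn : 4 ≤ n) (B S H : ℕ) (hB : 2 ≤ B) (hS : 1 ≤ S) (hH : 1 ≤ H)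
    (F : MvPolynomial (Fin 2) ℤ) (hF : F.totalDegree ≤ n)
    (hirr : Irreducible (map (Int.castRingHom ℚ) (homogeneousComponent n F)))
    (htop : ∀ m : Fin 2 →₀ ℕ, m.degree = n → |F.coeff m| ≤ (B : ℤ))
    (hlow : ∀ m : Fin 2 →₀ ℕ, m.degree < n → |F.coeff m| ≤ (S : ℤ) ^ (n - m.degree)) :
    {P : Fin 2 → ℤ | |eval P F| ≤ (H : ℤ)}.Finite ∧
    (({P : Fin 2 → ℤ | |eval P F| ≤ (H : ℤ)}.ncard : ℕ) : ℝ) ≤
      (B : ℝ) ^ (3000 * n ^ 4) * ((S : ℝ) ^ (1 - 1 / (36 * (n : ℝ) ^ 2)) + (H : ℝ) ^ (2 / (n : ℝ)) * (1 + Real.log H)) ∧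
    (({P : Fin 2 → ℤ | |eval P F| ≤ (H : ℤ) ∧
      ((B : ℤ) * S ^ n * H) ^ (700 * n ^ 5) < max |P 0| |P 1|}.ncard : ℕ) : ℝ) ≤ 360 * n ^ 4 * (H : ℝ) ^ (1 / (n : ℝ)) ∧
    (({c : ℤ | |c| ≤ (H : ℤ) ∧ ∃ P : Fin 2 → ℤ, eval P (F + C c) = 0}.ncard : ℕ) : ℝ) ≤
      (B : ℝ) ^ (3000 * n ^ 4) * ((S : ℝ) ^ (1 - 1 / (36 * (n : ℝ) ^ 2)) + (H : ℝ) ^ (2 / (n : ℝ)) * (1 + Real.log H)) ∧
    (({c : ℤ | |c| ≤ (H : ℤ) ∧ ∃ P : Fin 2 → ℤ, eval P (F + C c) = 0 ∧
      ((B : ℤ) * S ^ n * H) ^ (700 * n ^ 5) < max |P 0| |P 1|}.ncard : ℕ) : ℝ) ≤ 360 * n ^ 4 * (H : ℝ) ^ (1 / (n : ℝ)) ∧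
    ((∀ t b c : ℝ,
      (aeval ![Polynomial.X, Polynomial.C t * Polynomial.X + Polynomial.C b] F : Polynomial ℝ) ≠ Polynomial.C c) →
      {c : ℤ | ∃ P : Fin 2 → ℤ, eval P (F + C c) = 0 ∧
        ((B : ℤ) * S ^ n * max 1 |c|) ^ (6000000 * n ^ 5) < max |P 0| |P 1|}.encard ≤ (312 * n ^ 3 : ℕ)) ∧
    (∀ e : ℕ, e + 4 ≤ n → (∀ t b : ℝ, (if 3 * e + 4 ≤ n then e + 1 else e + 2) ≤
      (aeval ![Polynomial.X, Polynomial.C t * Polynomial.X + Polynomial.C b] F : Polynomial ℝ).natDegree) →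
      {q : MvPolynomial (Fin 2) ℤ × (Fin 2 → ℤ) | q.1.totalDegree ≤ e ∧ eval q.2 (F + q.1) = 0 ∧ ∃ h : ℕ, 1 ≤ h ∧
        (∀ m, |q.1.coeff m| ≤ (h : ℤ)) ∧
        ((B : ℤ) * S ^ n * h) ^ (6000000 * n ^ 5) < max |q.2 0| |q.2 1|}.encard ≤ (312 * n ^ 3 : ℕ)) ∧
    ((∀ t b : ℝ,
      n - 2 ≤ (aeval ![Polynomial.X, Polynomial.C t * Polynomial.X + Polynomial.C b] F : Polynomial ℝ).natDegree) →
      {q : MvPolynomial (Fin 2) ℤ × (Fin 2 → ℤ) | q.1.totalDegree ≤ n - 4 ∧ (∀ m, |q.1.coeff m| ≤ (H : ℤ)) ∧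
        eval q.2 (F + q.1) = 0 ∧ ((B : ℤ) * S ^ n * H) ^ (700 * n ^ 5) < max |q.2 0| |q.2 1|}.encard ≤ (80 * n ^ 3 : ℕ)) ∧
    (∃ T : Finset (ℤ × ℤ × ℤ), T.card ≤ 78 * n ^ 3 ∧ (∀ l ∈ T, l.1 ≠ 0 ∨ l.2.1 ≠ 0) ∧
      ∀ (L : MvPolynomial (Fin 2) ℤ) (P : Fin 2 → ℤ) (h : ℕ), L.totalDegree ≤ n - 4 → 1 ≤ h →
        (∀ m, |L.coeff m| ≤ (h : ℤ)) → eval P (F + L) = 0 →
        ((B : ℤ) * S ^ n * h) ^ (6000000 * n ^ 5) < max |P 0| |P 1| →
        ∃ l ∈ T, l.1 * P 0 + l.2.1 * P 1 = l.2.2) :=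
  Pool.Agent.H99.TA.finl n hn B S H hB hS hH F hF hirr htop hlow

end Pool.Agent.Results.MP_821da1_nt.EveryPencil
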