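import Pool.Agent.H88.TY.Effn
import Pool.Agent.H88.TF.Jcv
import Pool.Agent.H82.TO.All

/-!
# MP_821da1_nt: the number and the location of the integer points in every family of curves with fixed upper part

`G ∈ ℤ[x,y]` is fixed, `L` runs through the `K^M` polynomials of degree at most `j` (`M = (j+1)(j+2)/2`) with all coefficients in
`[-H,H]`, `K = 2H+1`. Either `1 ≤ j < n` and `G` has degree `n ≥ 4` and its part of degree `n` is irreducible over `ℚ`, or `j = n ≥ 5` and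
`G = 0`: then the `L` are all plane curves. `N(H)` is the number of the `L` for which `G + L = 0` has an integer point.
`(S, E, e) = (H^(1/(n-1)), H^(2+1/(n-1)), H^(-1/(20n^2)))`, `(H^(1/(n-2)), H^5 log H, 1/log H)`, `(1, K^(M-1), H^(-1/(2n+4)))`,
`(1, K^(M-1), H^(-1/100))` for `j = 1`, `j = 2`, `3 ≤ j < n`, `j = n`.
* (1) `N(H) ~ c E`, `c` an explicit integral with the leading form (`j = 1`), `(96 √5 + 64 log((1+√5)/2))/(n-2)` (`j = 2`), an explicit
  sum of volumes `k_j` (`j ≥ 3`, from (3)).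
* (2) Effective: for `H ≥ W`: `E/W ≤ N(H) ≤ W E`, and all but at most `W (1/T + e) N(H)` of the `N(H)` curves have exactly one
  integer point, of size at most `T S`.
* (3) For `j ≥ 3`: `N(H) = k_j E (1 + O(e))`, and the same saving for the curves with two integer points.
* The constant `W` is explicit if `j < n` and (`n ≥ 5` or `j = 1`): `W ≤ B^(n^17)`, `B ≥ 2` larger than the coefficients of `G` (for
  `n = 4`, `j = 2`: `W ≤ B^q` with an absolute `q`).
-/

namespace Pool.Agent.Results.MP_821da1_nt.EveryUpperPart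

open MvPolynomial Filter

/-- the number of the polynomials `L` of degree at most `j` with all coefficients in `[-H,H]` and the property `Q` -/
noncomputable def num (j H : ℕ) (Q : MvPolynomial (Fin 2) ℤ → Prop) : ℕ :=
  Set.ncard {L : MvPolynomial (Fin 2) ℤ | L.totalDegree ≤ j ∧ (∀ m, |L.coeff m| ≤ (H : ℤ)) ∧ Q L}

/-- the size of the integer points -/
noncomputable def S (n j H : ℕ) : ℝ :=
  if j = 1 then (H : ℝ) ^ (1 / ((n - 1 : ℕ) : ℝ)) else if j = 2 then (H : ℝ) ^ (1 / ((n - 2 : ℕ) : ℝ)) else 1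

/-- the order of the number of curves with an integer point -/
noncomputable def E (n j H : ℕ) : ℝ :=
  if j = 1 then (H : ℝ) ^ (2 + 1 / ((n - 1 : ℕ) : ℝ)) else
    if j = 2 then (H : ℝ) ^ 5 * Real.log H else (2 * (H : ℝ) + 1) ^ ((j + 1) * (j + 2) / 2 - 1)

/-- the error term -/
noncomputable def e (n j H : ℕ) : ℝ :=
  if j = 1 then (H : ℝ) ^ (-(1 / (20 * (n : ℝ) ^ 2))) else if j = 2 then 1 / Real.log H else
    if j < n then (H : ℝ) ^ (-(1 / (2 * (n : ℝ) + 4))) else (H : ℝ) ^ (-(1 / 100 : ℝ))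

theorem result : ∃ (k : ℕ → ℝ) (q : ℕ),
    (∀ j : ℕ, 3 ≤ j → 0 < k j ∧
      HasSum (fun P : ℤ × ℤ => MeasureTheory.volume.real
        {u : {i : Fin (j + 1) × Fin (j + 1) // 0 < (i.1 : ℕ) + i.2 ∧ (i.1 : ℕ) + i.2 ≤ j} → ℝ |
          (∀ i, |u i| ≤ 1) ∧
          |∑ i, u i * ((P.1 : ℝ) ^ (i.1.1 : ℕ) * (P.2 : ℝ) ^ (i.1.2 : ℕ))| ≤ 1} /
        2 ^ ((j + 1) * (j + 2) / 2 - 1)) (k j)) ∧
    ∀ (n j : ℕ) (G : MvPolynomial (Fin 2) ℤ), 4 ≤ n → 1 ≤ j →
      (j < n ∧ G.totalDegree ≤ n ∧ Irreducible (map (Int.castRingHom ℚ) (homogeneousComponent n G)) ∨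
        j = n ∧ 5 ≤ n ∧ G = 0) →
      (j = 1 → 0 < (∫ z : ℝ × ℝ, 2 / |z.1| * MeasureTheory.volume.real
            {b : ℝ | |b| ≤ 1 ∧ |b * z.2 + aeval ![z.1, z.2] (homogeneousComponent n G)| ≤ |z.1|}) ∧
        Tendsto (fun H : ℕ => (num j H (fun L => ∃ P : Fin 2 → ℤ, eval P (G + L) = 0) : ℝ) / E n j H) atTop
          (nhds (∫ z : ℝ × ℝ, 2 / |z.1| * MeasureTheory.volume.real
            {b : ℝ | |b| ≤ 1 ∧ |b * z.2 + aeval ![z.1, z.2] (homogeneousComponent n G)| ≤ |z.1|}))) ∧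
      (j = 2 → Tendsto (fun H : ℕ => (num j H (fun L => ∃ P : Fin 2 → ℤ, eval P (G + L) = 0) : ℝ) / E n j H) atTop
        (nhds ((96 * Real.sqrt 5 + 64 * Real.log ((1 + Real.sqrt 5) / 2)) / ((n - 2 : ℕ) : ℝ)))) ∧
      ∃ W : ℝ, 2 ≤ W ∧ (∀ B : ℕ, 2 ≤ B → (∀ m, |G.coeff m| < (B : ℤ)) →
          (j < n → 5 ≤ n ∨ j = 1 → W ≤ (B : ℝ) ^ (n ^ 17)) ∧ (n = 4 → j = 2 → W ≤ (B : ℝ) ^ q)) ∧
        (∀ H : ℕ, W ≤ (H : ℝ) →
          E n j H ≤ W * num j H (fun L => ∃ P : Fin 2 → ℤ, eval P (G + L) = 0) ∧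
          num j H (fun L => ∃ P : Fin 2 → ℤ, eval P (G + L) = 0) ≤ W * E n j H ∧
          ∀ T : ℕ, 1 ≤ T →
            (num j H (fun L => (∃ P : Fin 2 → ℤ, eval P (G + L) = 0) ∧ ¬ ∃ P : Fin 2 → ℤ, eval P (G + L) = 0 ∧
              (∀ i, |(P i : ℝ)| ≤ T * S n j H) ∧ ∀ Q : Fin 2 → ℤ, eval Q (G + L) = 0 → Q = P) : ℝ) ≤
            W * (1 / (T : ℝ) + e n j H) * num j H (fun L => ∃ P : Fin 2 → ℤ, eval P (G + L) = 0)) ∧
        (3 ≤ j → ∀ H : ℕ, 1 ≤ H →
          |(num j H (fun L => ∃ P : Fin 2 → ℤ, eval P (G + L) = 0) : ℝ) - k j * E n j H| ≤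
            W * e n j H * E n j H ∧
          num j H (fun L => ∃ P Q : Fin 2 → ℤ, P ≠ Q ∧ eval P (G + L) = 0 ∧ eval Q (G + L) = 0) ≤
            W * e n j H * E n j H ∧
          ∀ T : ℕ, 1 ≤ T →
            num j H (fun L => ∃ P : Fin 2 → ℤ, (T : ℤ) < max |P 0| |P 1| ∧ eval P (G + L) = 0) ≤
              W * (1 / (T : ℝ) ^ (j - 2) + e n j H) * E n j H) := by
  obtain ⟨q, hfin⟩ := Pool.Agent.H88.TY.finr
  refine ⟨Pool.Agent.H15.SC.kaps, q, fun j hj => ⟨Pool.Agent.H15.SC.kaps_pos j hj, ?_⟩, ?_⟩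
  · have h1 : HasSum (fun P : ℤ × ℤ => Pool.Agent.H15.SC.kap j P) (Pool.Agent.H15.SC.kaps j) :=
      (Pool.Agent.H15.SC.kaps_summable j hj).hasSum
    have h2 : (fun P : ℤ × ℤ => Pool.Agent.H15.SC.kap j P) = fun P : ℤ × ℤ => MeasureTheory.volume.real
        (Pool.Agent.H15.SC.Om j P) / 2 ^ ((j + 1) * (j + 2) / 2 - 1) := by
      funext P
      have h3 : Fintype.card (Pool.Agent.H8.NoPt.Ix j) = (j + 1) * (j + 2) / 2 := Pool.Agent.H8.AA.card_ix j
      rw [Pool.Agent.H15.SC.kap_vol j (by omega) P, Pool.Agent.H15.SC.card_Nc, h3]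
    rw [h2] at h1
    exact h1
  · intro n j G hn hj hcase
    rcases hcase with ⟨hjn, hG, hirr⟩ | ⟨hjn, hn5, hG⟩
    · have h0 : Pool.Agent.H88.A2.Hyp0 n j G := ⟨hn, hj, hjn, hG, hirr⟩
      have hall := Pool.Agent.H82.TO.all n j G hn hj hjn hG hirr
      have hee : ∀ H : ℕ, e n j H = Pool.Agent.H88.TY.er n j H := by
        intro H
        unfold e Pool.Agent.H88.TY.er
        rw [if_pos hjn]
      refine ⟨?_, ?_, ?_⟩
      · intro h1
        have h2 := hall.1 h1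
        refine ⟨h2.1, ?_⟩
        have h3 : (fun H : ℕ => (num j H (fun L => ∃ P : Fin 2 → ℤ, eval P (G + L) = 0) : ℝ) / E n j H) =
            fun H : ℕ => (Pool.Agent.H82.TO.cnt j G H : ℝ) / (H : ℝ) ^ (2 + 1 / ((n - 1 : ℕ) : ℝ)) := by
          funext H
          unfold E
          rw [if_pos h1]
          rfl
        rw [h3]
        exact h2.2
      · intro h1
        have h2 := hall.2.1 h1
        have h3 : (fun H : ℕ => (num j H (fun L => ∃ P : Fin 2 → ℤ, eval P (G + L) = 0) : ℝ) / E n j H) =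
            fun H : ℕ => (Pool.Agent.H82.TO.cnt j G H : ℝ) / ((H : ℝ) ^ 5 * Real.log H) := by
          funext H
          unfold E
          rw [if_neg (by omega), if_pos h1]
          rfl
        rw [h3]
        exact h2
      · obtain ⟨W, hW2, hW, h1, h3⟩ := hfin n j G h0
        refine ⟨W, hW2, fun B hB hGB => ⟨fun _ h => (hW B hB hGB).1 h, fun h4 h5 => (hW B hB hGB).2 ⟨h4, h5⟩⟩,
          fun H hH => ?_, fun hj3 H hH => ?_⟩
        · rw [hee]
          exact h1 H hH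
        · have hE : E n j H = (2 * (H : ℝ) + 1) ^ ((j + 1) * (j + 2) / 2 - 1) := by
            unfold E
            rw [if_neg (by omega), if_neg (by omega)]
          have he : e n j H = (H : ℝ) ^ (-(1 / (2 * (n : ℝ) + 4))) := by
            unfold e
            rw [if_neg (by omega), if_neg (by omega), if_pos hjn]
          rw [hE, he]
          exact h3 hj3 H hH
    · subst hjn
      subst hG
      refine ⟨fun h => by omega, fun h => by omega, ?_⟩
      obtain ⟨W, hW2, h1, h3⟩ := Pool.Agent.H88.TY.effn j hn5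
      have he : ∀ H : ℕ, e j j H = (H : ℝ) ^ (-(1 / 100 : ℝ)) := by
        intro H
        unfold e
        rw [if_neg (by omega), if_neg (by omega), if_neg (lt_irrefl j)]
      refine ⟨W, hW2, fun B _ _ => ⟨fun h => absurd h (lt_irrefl j), fun h => by omega⟩, fun H hH => ?_, fun _ H hH => ?_⟩
      · rw [he]
        exact h1 H hH
      · rw [he]
        exact h3 H hH

end Pool.Agent.Results.MP_821da1_nt.EveryUpperPart
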