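import Pool.Agent.H4.TQ.Main
import Pool.Agent.H4.XV.XUF
import Pool.Agent.H97.XE.FIN

/-!
# The integer points of one-parameter families of plane curves

Let `n ≥ 3` and `F_0, …, F_m ∈ ℤ[x,y]` of total degree at most `n`, `F = F_0 + t F_1 + ⋯ + t^m F_m`.
Suppose that `F` is irreducible over `ℚ(t)` and that the part `f_m` of degree `n` of `F_m` is squarefree
over `ℚ`. If `m ≥ 2`, suppose that the part of degree `n` (in `x, y`) of `F` is either irreducible over
`ℂ(t)` or reducible over `ℚ(t)` (for pencils, `m = 1`, nothing is supposed).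

(1) EFFECTIVE AND UNIFORM. Let `m ≥ 1`, suppose that every real zero of `f_m(X,1)` has degree less than `n/2`
over `ℚ`, let `H ≥ 2` bound the coefficients of `F_0, …, F_m` and let `K = 2^((3 m n^2)!)`. All integer points
`(x,y)` of ALL members `F_a = F_0 + a F_1 + ⋯ + a^m F_m = 0`, `|a| ≥ H^K`, have `|x|, |y| ≤ |a|^K`, and, unless all
`F_j` are rational multiples of `F_m`, all of them lie on one fixed curve (it does not depend on `a`): there are
`R₁, R₂ ∈ ℤ[t,X]` of degree at most `K` in `t` and in `X`, with coefficients in `[-H^K, H^K]`, such that for all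
`|a| ≥ H^K`: `R₁(a,X) ≠ 0`, `R₂(a,X) ≠ 0`, and `R₁(a,x) = R₂(a,y) = 0` for all integer points `(x,y)` of `F_a = 0`.
(An effective form of the statement that the integer points `(a,x,y)` of the surface `F(t,x,y) = 0` are not
Zariski dense. The integer points of a member are among the pairs of integer zeros of two polynomials
of bounded degree, so there are at most `K^2` of them.)

(2) For all but at most `K N^(1-δ)` of the integers `|a| ≤ N` every integer point `(x,y)` of `F_a = 0` is the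
value `(r₁(a), r₂(a))` of a polynomial solution `r₁, r₂ ∈ ℚ[t]`, `F(t, r₁(t), r₂(t)) = 0`, of degree at most
`D`. There are only finitely many such polynomial solutions if the part of degree `n` of `F` has no zero but
`(0,0)` over `ℂ[t]`, for instance if it is irreducible over `ℂ(t)`. If `f_m` has no rational zero but
`(0,0)`, the integer points of `F_a = 0` are exactly the common integer zeros of `F_0, …, F_m`.
-/

namespace Pool.Agent.Results.MP_821da1_nt.ExactFamilies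

open Finset Polynomial

/-- the family `F_0 + t F_1 + ⋯ + t^m F_m`, over `k[t]` -/
noncomputable def family (k : Type) [Field k] (m : ℕ) (F : ℕ → MvPolynomial (Fin 2) ℤ) :
    MvPolynomial (Fin 2) k[X] :=
  ∑ j ∈ range (m + 1), MvPolynomial.C (X ^ j) * MvPolynomial.map (Int.castRingHom k[X]) (F j)

/-- the part of degree `n` in `x, y` of the family `F_0 + t F_1 + ⋯ + t^m F_m`, over `k[t]` -/
noncomputable def topPart (k : Type) [Field k] (n m : ℕ) (F : ℕ → MvPolynomial (Fin 2) ℤ) :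
    MvPolynomial (Fin 2) k[X] :=
  ∑ j ∈ range (m + 1), MvPolynomial.C (X ^ j) *
    MvPolynomial.map (Int.castRingHom k[X]) (MvPolynomial.homogeneousComponent n (F j))

/-- `p` is, up to a factor in the ring of coefficients, a product of two polynomials of positive
degree: for `p` over `k[t]`, `p` is reducible over `k(t)` -/
def Splits {R : Type} [CommRing R] (p : MvPolynomial (Fin 2) R) : Prop :=
  ∃ (c : R) (g h : MvPolynomial (Fin 2) R), c ≠ 0 ∧ 0 < g.totalDegree ∧ 0 < h.totalDegree ∧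
    MvPolynomial.C c * p = g * h

/-- the solutions `(r₁, r₂)` in `ℚ[t]` of degree at most `D` of
`F_0(r₁, r₂) + t F_1(r₁, r₂) + ⋯ + t^m F_m(r₁, r₂) = 0` -/
def polynomialSolutions (m : ℕ) (F : ℕ → MvPolynomial (Fin 2) ℤ) (D : ℕ) : Set (ℚ[X] × ℚ[X]) :=
  {r | r.1.natDegree ≤ D ∧ r.2.natDegree ≤ D ∧
    ∑ j ∈ range (m + 1), X ^ j * MvPolynomial.aeval ![r.1, r.2] (F j) = 0}

/-- the integer points of the member `F_0 + a F_1 + ⋯ + a^m F_m = 0` -/
def integerPoints (m : ℕ) (F : ℕ → MvPolynomial (Fin 2) ℤ) (a : ℤ) : Set (ℤ × ℤ) :=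
  {p | ∑ j ∈ range (m + 1), a ^ j * MvPolynomial.eval ![p.1, p.2] (F j) = 0}

/-- all `F_j`, `j ≤ m`, are rational multiples of `F_m` -/
def Proportional (m : ℕ) (F : ℕ → MvPolynomial (Fin 2) ℤ) : Prop :=
  ∀ j ≤ m, ∃ r : ℚ, MvPolynomial.map (Int.castRingHom ℚ) (F j) =
    MvPolynomial.C r * MvPolynomial.map (Int.castRingHom ℚ) (F m)

/-- the exponent -/
def expo (n m : ℕ) : ℕ := 2 ^ (3 * m * n ^ 2).factorial

/-- `R(a, X)` for `R ∈ ℤ[t, X]` -/
noncomputable def fibre (R : ℤ[X][X]) (a : ℤ) : ℤ[X] := R.map (evalRingHom a)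

/-- `R ∈ ℤ[t, X]` has degree at most `K` in `t` and in `X` and coefficients in `[-H^K, H^K]`, and `R(a, X) ≠ 0` for all
integers `a` with `|a| ≥ H^K` -/
def Explicit (H K : ℕ) (R : ℤ[X][X]) : Prop :=
  R.natDegree ≤ K ∧ (∀ i, (R.coeff i).natDegree ≤ K) ∧
    (∀ i j, |(R.coeff i).coeff j| ≤ (H : ℤ) ^ K) ∧ ∀ a : ℤ, (H : ℤ) ^ K ≤ |a| → fibre R a ≠ 0

/-- **ExactFamilies.** -/
theorem result (n m : ℕ) (hn : 3 ≤ n) (F : ℕ → MvPolynomial (Fin 2) ℤ)
    (hF : ∀ j ≤ m, (F j).totalDegree ≤ n) (h1 : ¬ Splits (family ℚ m F))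
    (h2 : Squarefree (MvPolynomial.map (Int.castRingHom ℚ)
      (MvPolynomial.homogeneousComponent n (F m))))
    (h3 : 2 ≤ m → Splits (topPart ℂ n m F) → Splits (topPart ℚ n m F)) :
    (1 ≤ m → (∀ θ : ℝ,
        MvPolynomial.aeval ![θ, 1] (MvPolynomial.homogeneousComponent n (F m)) = 0 →
          2 * (minpoly ℚ θ).natDegree < n) →
      ∀ H : ℕ, 2 ≤ H → (∀ j ≤ m, ∀ e, |(F j).coeff e| ≤ (H : ℤ)) →
        (∀ a : ℤ, (H : ℤ) ^ expo n m ≤ |a| → ∀ p ∈ integerPoints m F a,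
          |p.1| ≤ |a| ^ expo n m ∧ |p.2| ≤ |a| ^ expo n m) ∧
        (¬ Proportional m F → ∃ R₁ R₂ : ℤ[X][X],
          Explicit H (expo n m) R₁ ∧ Explicit H (expo n m) R₂ ∧
          ∀ a : ℤ, (H : ℤ) ^ expo n m ≤ |a| → ∀ p ∈ integerPoints m F a,
            (fibre R₁ a).eval p.1 = 0 ∧ (fibre R₂ a).eval p.2 = 0)) ∧
    (∃ (K δ : ℝ) (D : ℕ), 0 < δ ∧ δ < 1 ∧
      ((∀ X Y : ℂ[X], MvPolynomial.aeval ![X, Y] (topPart ℂ n m F) = 0 → X = 0 ∧ Y = 0) →
        (polynomialSolutions m F D).Finite) ∧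
      ∀ N : ℕ, 1 ≤ N → ∃ E : Finset ℤ, (E.card : ℝ) ≤ K * (N : ℝ) ^ (1 - δ) ∧
        ∀ a : ℤ, |a| ≤ N → a ∉ E → ∀ p ∈ integerPoints m F a,
          (∃ r ∈ polynomialSolutions m F D, r.1.eval (a : ℚ) = p.1 ∧ r.2.eval (a : ℚ) = p.2) ∧
          ((∀ u v : ℚ,
            MvPolynomial.aeval ![u, v] (MvPolynomial.homogeneousComponent n (F m)) = 0 →
              u = 0 ∧ v = 0) → ∀ j ≤ m, MvPolynomial.eval ![p.1, p.2] (F j) = 0)) := by
  refine ⟨fun hm hR H hH hc => ⟨fun a ha p hp => ?_, fun hP => ?_⟩, ?_⟩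
  · obtain ⟨h4, -⟩ := Pool.Agent.H4.XV.main_u n m H hn hm F hF h1 h2 h3 hR hH hc a ha
    exact h4 p.1 p.2 hp
  · obtain ⟨R₁, R₂, h4, h5⟩ :=
      Pool.Agent.H97.XE.main_e n m H hn hm F hF h1 h2 h3 hR hH hc hP
    refine ⟨R₁, R₂, h4 R₁ (by simp), h4 R₂ (by simp), fun a ha p hp => ?_⟩
    exact h5 a p.1 p.2 ha hp
  · obtain ⟨K, δ, D, hδ, hδ1, hfin, H⟩ := Pool.Agent.H4.TQ.main n m hn F hF h1 h2 h3
    refine ⟨K, δ, D, hδ, hδ1, hfin, fun N hN => ?_⟩
    obtain ⟨E, hE, HE⟩ := H N hN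
    exact ⟨E, hE, fun a ha haE p hp => HE a ha haE p.1 p.2 hp⟩

end Pool.Agent.Results.MP_821da1_nt.ExactFamilies
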